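import Pool.Agent.Lib.MP_ef09c4_co.Main

set_option autoImplicit false

open MvPolynomial Pool.Agent.Lib.MP_ef09c4_co

namespace Pool.Agent.Results.MP_ef09c4_co.DeltaPowerSum

/-- The operator with eigenvalues `e_(n-1)[B_μ]` sends `p_1^n` to the sum of the normalised link
symmetric functions of the binary words of length `n` with exactly one `1`. -/
theorem result :
    (∃ H : YoungDiagram → SymF QT, IsMacdonald (par 0) (par 1) H ∧
      ∀ k : ℕ, ∃ D : SymF QT →ₗ[QT] SymF QT,
        ∀ m, D (H m) = (cellWeights (par 0) (par 1) m).esymm k • H m) ∧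
    ∀ H : YoungDiagram → SymF QT, IsMacdonald (par 0) (par 1) H →
      ∀ n : ℕ, 1 ≤ n → ∀ D : SymF QT →ₗ[QT] SymF QT,
        (∀ m, D (H m) = (cellWeights (par 0) (par 1) m).esymm (n - 1) • H m) →
        ∀ N : ℕ, Agree N (D (X 0 ^ n))
          (∑ v ∈ Finset.univ.filter fun v : Fin n → Bool => ones v = 1, linkTilde N v) := by
  refine ⟨?_, fun H hH n hn D hD N => ?_⟩
  · obtain ⟨H, hH, -⟩ := exists_mac gen_par
    exact ⟨H, hH, fun k => exists_diag (hH.indep gen_par) _⟩
  · obtain ⟨n, rfl⟩ : ∃ k, n = k + 1 := ⟨n - 1, by omega⟩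
    exact delta_main hH n hD N

end Pool.Agent.Results.MP_ef09c4_co.DeltaPowerSum
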