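import Pool.Agent.Lib.MP_ef09c4_co.Main

set_option autoImplicit false

open MvPolynomial Pool.Agent.Lib.MP_ef09c4_co

namespace Pool.Agent.Results.MP_ef09c4_co.LinkRecursion

/-- Appending a zero to a binary word acts on the normalised link symmetric functions as the
conjugate by nabla of multiplication by `p_1`. -/
theorem result :
    (∃ (H : YoungDiagram → SymF QT) (D : SymF QT →ₗ[QT] SymF QT), IsMacdonald (par 0) (par 1) H ∧
      ∀ m, D (H m) = (cellWeights (par 0) (par 1) m).esymm m.card • H m) ∧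
    ∀ (H : YoungDiagram → SymF QT) (D : SymF QT →ₗ[QT] SymF QT), IsMacdonald (par 0) (par 1) H →
      (∀ m, D (H m) = (cellWeights (par 0) (par 1) m).esymm m.card • H m) →
      Function.Bijective D ∧ ∃ L : ∀ n : ℕ, (Fin n → Bool) → SymF QT,
        (∀ n v N, Agree N (L n v) (linkTilde N v)) ∧
        ∀ n v F, D F = L n v → D (X 0 * F) = L (n + 1) (Fin.snoc v false) := by
  refine ⟨?_, fun H D hH hD => nabla_main hH hD⟩
  obtain ⟨H, hH, -⟩ := exists_mac gen_par
  obtain ⟨D, hD⟩ := exists_diag (hH.indep gen_par)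
    fun m => (cellWeights (par 0) (par 1) m).esymm m.card
  exact ⟨H, D, hH, hD⟩

end Pool.Agent.Results.MP_ef09c4_co.LinkRecursion
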